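import Mathlib
import Pool.Agent.R706.GrInt
import Pool.Agent.R706.GrOp

/-!
# Modules over graded right artinian rings with gradable approximations are gradable

Right `R`-modules are modules over `Rᵐᵒᵖ`, and `R` is right artinian when `Rᵐᵒᵖ` is an artinian
ring (in Mathlib this is the left artinian condition).
-/

set_option autoImplicit false

namespace Pool.Agent.Results.MP_c3b2eb_al.ApproximationGradable

open MulOpposite

universe u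

/-- a right module is gradable when it is isomorphic to a right module `N = ⨁ N_i` with
`N_i R_j ⊆ N_{i+j}` -/
def Gradable {R : Type u} [Ring R] (𝒜 : ℤ → AddSubgroup R) (M : Type u) [AddCommGroup M]
    [Module Rᵐᵒᵖ M] : Prop :=
  ∃ (N : Type u) (_ : AddCommGroup N) (_ : Module Rᵐᵒᵖ N) (𝓝 : ℤ → AddSubgroup N),
    DirectSum.IsInternal 𝓝 ∧
    (∀ i j : ℤ, ∀ x ∈ 𝓝 i, ∀ r ∈ 𝒜 j, op r • x ∈ 𝓝 (i + j)) ∧
    Nonempty (M ≃ₗ[Rᵐᵒᵖ] N)

/-- `f : C → X` is a right approximation of `X` by finitely generated gradable modules -/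
def IsRightApproximation {R : Type u} [Ring R] (𝒜 : ℤ → AddSubgroup R) {C X : Type u}
    [AddCommGroup C] [Module Rᵐᵒᵖ C] [AddCommGroup X] [Module Rᵐᵒᵖ X] (f : C →ₗ[Rᵐᵒᵖ] X) : Prop :=
  Module.Finite Rᵐᵒᵖ C ∧ Gradable 𝒜 C ∧
  ∀ (C' : Type u) [AddCommGroup C'] [Module Rᵐᵒᵖ C'], Module.Finite Rᵐᵒᵖ C' → Gradable 𝒜 C' →
    ∀ g : C' →ₗ[Rᵐᵒᵖ] X, ∃ h : C' →ₗ[Rᵐᵒᵖ] C, g = f ∘ₗ h

/-- Over a graded right artinian ring, a finitely generated right module with a right approximation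
by finitely generated gradable modules is gradable. -/
theorem result (R : Type u) [Ring R] (𝒜 : ℤ → AddSubgroup R) [GradedRing 𝒜]
    [IsArtinianRing Rᵐᵒᵖ] (X : Type u) [AddCommGroup X] [Module Rᵐᵒᵖ X] [Module.Finite Rᵐᵒᵖ X]
    (h : ∃ (C : Type u) (_ : AddCommGroup C) (_ : Module Rᵐᵒᵖ C) (f : C →ₗ[Rᵐᵒᵖ] X),
      IsRightApproximation 𝒜 f) : Gradable 𝒜 X := by
  have hback : ∀ (N : Type u) [AddCommGroup N] [Module Rᵐᵒᵖ N] (M : Type u) [AddCommGroup M]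
      [Module Rᵐᵒᵖ M] (D : R706.GrMod.Grd (R706.GrOp.opGr 𝒜) N), Nonempty (M ≃ₗ[Rᵐᵒᵖ] N) →
      Gradable 𝒜 M := by
    intro N _ _ M _ _ D hN
    refine ⟨N, inferInstance, inferInstance, fun i => (D.p i).range, D.isInternal, ?_, hN⟩
    intro i j x hx r hr
    rw [add_comm]
    exact D.smul_range i j hr hx
  obtain ⟨C, iC, mC, f, hfin, ⟨C₀, iC₀, mC₀, 𝓝, h𝓝, h𝓝s, ⟨φ⟩⟩, hf⟩ := h
  have hfin₀ : Module.Finite Rᵐᵒᵖ C₀ := Module.Finite.equiv φ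
  obtain ⟨D⟩ := R706.GrMod.grd_of_internal (𝒜 := R706.GrOp.opGr 𝒜) 𝓝 h𝓝
    (fun i j x hx a ha => h𝓝s i j x hx a.unop ha)
  obtain ⟨N, iN, mN, D', hN⟩ := R706.GrMod.apx_main (𝒜 := R706.GrOp.opGr 𝒜) _ X le_rfl
    ⟨C₀, iC₀, mC₀, hfin₀, D, f ∘ₗ φ.symm.toLinearMap, fun C' _ _ _ D' g => by
      obtain ⟨h, hh⟩ := hf C' inferInstance (hback C' C' D' ⟨LinearEquiv.refl _ _⟩) g
      refine ⟨φ.toLinearMap ∘ₗ h, ?_⟩
      rw [hh]
      ext x
      show f (φ.symm (φ (h x))) = f (h x)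
      rw [LinearEquiv.symm_apply_apply]⟩
  exact hback N X D' hN

end Pool.Agent.Results.MP_c3b2eb_al.ApproximationGradable
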